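import Mathlib

/-!
Two-class partitions with few monochromatic products having large factors.
-/

namespace Pool.Agent.Results.MP_c34da8_nt.TwoClasses

open Finset

/-- The integers `n = a a'` with `a, a'` in a common class and `min (a, a') > f n`. -/
def monoProducts (f : ℕ → ℝ) (A₁ A₂ : Set ℕ) : Set ℕ :=
  {n | ∃ a a' : ℕ, 1 ≤ a ∧ 1 ≤ a' ∧ n = a * a' ∧
    ((a ∈ A₁ ∧ a' ∈ A₁) ∨ (a ∈ A₂ ∧ a' ∈ A₂)) ∧ f n < (min a a' : ℕ)}

/-- Lower asymptotic density of a set of positive integers. -/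
noncomputable def lowerDensity (D : Set ℕ) : ℝ :=
  Filter.liminf (fun M : ℕ => ((D ∩ Set.Icc 1 M).ncard : ℝ) / M) Filter.atTop

/-! ### The multiplication table theorem -/

/-- number of `p ∈ C` dividing `n` -/
noncomputable def w (C : Finset ℕ) (n : ℕ) : ℝ := ∑ p ∈ C, if p ∣ n then (1 : ℝ) else 0

noncomputable def S (C : Finset ℕ) : ℝ := ∑ p ∈ C, (1 : ℝ) / p

theorem count_dvd (N p : ℕ) : ∑ n ∈ Icc 1 N, (if p ∣ n then (1 : ℝ) else 0) = ((N / p : ℕ) : ℝ) := by
  rw [← Finset.sum_filter, Finset.sum_const, nsmul_eq_mul, mul_one]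
  congr 1
  exact Nat.Ioc_filter_dvd_card_eq_div N p

theorem count_dvd_le (N p : ℕ) :
    ∑ n ∈ Icc 1 N, (if p ∣ n then (1 : ℝ) else 0) ≤ (N : ℝ) / p := by
  rw [count_dvd]; exact Nat.cast_div_le

theorem count_dvd_ge (N p : ℕ) (hp : 0 < p) :
    (N : ℝ) / p - 1 ≤ ∑ n ∈ Icc 1 N, (if p ∣ n then (1 : ℝ) else 0) := by
  rw [count_dvd]
  have hp' : (0 : ℝ) < p := by exact_mod_cast hp
  rw [sub_le_iff_le_add, div_le_iff₀ hp']
  have h : N < (N / p + 1) * p := by
    have := Nat.lt_div_mul_add (a := N) hp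
    linarith
  have : (N : ℝ) < ((N / p : ℕ) + 1) * p := by exact_mod_cast h
  linarith

theorem variance (C : Finset ℕ) (hC : ∀ p ∈ C, p.Prime) (N : ℕ) :
    ∑ n ∈ Icc 1 N, (w C n - S C) ^ 2 ≤ N * S C + 2 * S C * C.card := by
  have hS0 : 0 ≤ S C := Finset.sum_nonneg (fun _ _ => by positivity)
  have e : ∀ n, (w C n - S C) ^ 2 = w C n ^ 2 - 2 * S C * w C n + S C ^ 2 := by
    intro n; ring
  have h1 : ∑ n ∈ Icc 1 N, w C n ≥ N * S C - C.card := by
    simp only [w]
    rw [Finset.sum_comm]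
    calc (N : ℝ) * S C - C.card = ∑ p ∈ C, ((N : ℝ) / p - 1) := by
          rw [Finset.sum_sub_distrib, S, Finset.mul_sum]
          simp [div_eq_mul_inv]
      _ ≤ _ := Finset.sum_le_sum (fun p hp => count_dvd_ge N p (hC p hp).pos)
  have h2 : ∑ n ∈ Icc 1 N, w C n ^ 2 ≤ N * S C ^ 2 + N * S C := by
    have e2 : ∀ n, w C n ^ 2 = ∑ p ∈ C, ∑ q ∈ C, (if p ∣ n then (1 : ℝ) else 0) *
        (if q ∣ n then (1 : ℝ) else 0) := by
      intro n
      rw [w, sq, Finset.sum_mul_sum]
    simp only [e2]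
    rw [Finset.sum_comm]
    have h3 : ∀ p ∈ C, ∑ n ∈ Icc 1 N, ∑ q ∈ C, (if p ∣ n then (1 : ℝ) else 0) *
        (if q ∣ n then (1 : ℝ) else 0) ≤ (N : ℝ) * (1 / p) * S C + N * (1 / p) := by
      intro p hp
      rw [Finset.sum_comm]
      have h4 : ∀ q ∈ C, ∑ n ∈ Icc 1 N, (if p ∣ n then (1 : ℝ) else 0) *
        (if q ∣ n then (1 : ℝ) else 0) ≤ (N : ℝ) * (1 / p) * (1 / q) +
          (if q = p then (N : ℝ) * (1 / p) else 0) := by
        intro q hq
        by_cases hqp : q = p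
        · subst hqp
          rw [if_pos rfl]
          have : ∀ n, (if q ∣ n then (1 : ℝ) else 0) * (if q ∣ n then (1 : ℝ) else 0) =
              if q ∣ n then (1 : ℝ) else 0 := by intro n; split_ifs <;> simp
          simp only [this]
          have h5 := count_dvd_le N q
          have h6 : (0 : ℝ) ≤ (N : ℝ) * (1 / q) * (1 / q) := by positivity
          have h7 : (N : ℝ) / q = N * (1 / q) := by ring
          linarith
        · rw [if_neg hqp, add_zero]
          have : ∀ n, (if p ∣ n then (1 : ℝ) else 0) * (if q ∣ n then (1 : ℝ) else 0) =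
              if (p * q) ∣ n then (1 : ℝ) else 0 := by
            intro n
            have hcop : Nat.Coprime p q :=
              (Nat.coprime_primes (hC p hp) (hC q hq)).2 (fun h => hqp h.symm)
            have : p * q ∣ n ↔ p ∣ n ∧ q ∣ n := by
              constructor
              · intro h; exact ⟨(dvd_mul_right _ _).trans h, (dvd_mul_left _ _).trans h⟩
              · rintro ⟨h, h'⟩; exact hcop.mul_dvd_of_dvd_of_dvd h h'
            by_cases h1 : p ∣ n <;> by_cases h2 : q ∣ n <;> simp [this, h1, h2]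
          simp only [this]
          refine (count_dvd_le N (p * q)).trans (le_of_eq ?_)
          push_cast
          rw [mul_assoc, div_mul_div_comm, one_mul, mul_one_div]
      refine (Finset.sum_le_sum h4).trans (le_of_eq ?_)
      rw [Finset.sum_add_distrib, ← Finset.mul_sum, Finset.sum_ite_eq' C p, if_pos hp]
      rfl
    refine (Finset.sum_le_sum h3).trans (le_of_eq ?_)
    rw [Finset.sum_add_distrib, ← Finset.sum_mul, ← Finset.mul_sum]
    show (N : ℝ) * S C * S C + N * S C = _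
    ring
  calc ∑ n ∈ Icc 1 N, (w C n - S C) ^ 2
      = ∑ n ∈ Icc 1 N, w C n ^ 2 - 2 * S C * ∑ n ∈ Icc 1 N, w C n + N * S C ^ 2 := by
        simp only [e]
        rw [Finset.sum_add_distrib, Finset.sum_sub_distrib, ← Finset.mul_sum]
        simp
    _ ≤ (N * S C ^ 2 + N * S C) - 2 * S C * (N * S C - C.card) + N * S C ^ 2 := by
        gcongr
    _ = _ := by ring

theorem chebyshev (C : Finset ℕ) (hC : ∀ p ∈ C, p.Prime) (N : ℕ) (t : ℝ)
    (Q : ℕ → Prop) [DecidablePred Q] (ht : 0 < t) (hQ : ∀ n, Q n → t ≤ |w C n - S C|) :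
    (((Icc 1 N).filter Q).card : ℝ) ≤ (N * S C + 2 * S C * C.card) / t ^ 2 := by
  rw [le_div_iff₀ (by positivity)]
  calc (((Icc 1 N).filter Q).card : ℝ) * t ^ 2 = ∑ n ∈ (Icc 1 N).filter Q, t ^ 2 := by
        rw [Finset.sum_const, nsmul_eq_mul]
    _ ≤ ∑ n ∈ (Icc 1 N).filter Q, (w C n - S C) ^ 2 := by
        refine Finset.sum_le_sum ?_
        intro n hn
        rw [mem_filter] at hn
        have := hQ n hn.2
        rw [← sq_abs (w C n - S C)]
        gcongr
    _ ≤ ∑ n ∈ Icc 1 N, (w C n - S C) ^ 2 :=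
        Finset.sum_le_sum_of_subset_of_nonneg (Finset.filter_subset _ _)
          (fun _ _ _ => sq_nonneg _)
    _ ≤ _ := variance C hC N

/-- number of common `p ∈ C` -/
noncomputable def w2 (C : Finset ℕ) (a b : ℕ) : ℝ :=
  ∑ p ∈ C, (if p ∣ a then (1 : ℝ) else 0) * (if p ∣ b then (1 : ℝ) else 0)

theorem w_mul (C : Finset ℕ) (hC : ∀ p ∈ C, p.Prime) (a b : ℕ) :
    w C (a * b) = w C a + w C b - w2 C a b := by
  simp only [w, w2]
  rw [← Finset.sum_add_distrib, ← Finset.sum_sub_distrib]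
  refine Finset.sum_congr rfl ?_
  intro p hp
  have : p ∣ a * b ↔ p ∣ a ∨ p ∣ b := (hC p hp).dvd_mul
  by_cases h1 : p ∣ a <;> by_cases h2 : p ∣ b <;> simp [this, h1, h2]

theorem sum_w2 (C : Finset ℕ) (hC : ∀ p ∈ C, p.Prime) (N : ℕ) :
    ∑ a ∈ Icc 1 N, ∑ b ∈ Icc 1 N, w2 C a b ≤ (N : ℝ) ^ 2 * 2 := by
  have h0 : ∑ a ∈ Icc 1 N, ∑ b ∈ Icc 1 N, w2 C a b =
      ∑ p ∈ C, (∑ a ∈ Icc 1 N, (if p ∣ a then (1 : ℝ) else 0)) *
        (∑ b ∈ Icc 1 N, (if p ∣ b then (1 : ℝ) else 0)) := by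
    simp only [w2, Finset.sum_mul_sum]
    calc _ = ∑ a ∈ Icc 1 N, ∑ p ∈ C, ∑ b ∈ Icc 1 N,
          (if p ∣ a then (1 : ℝ) else 0) * (if p ∣ b then (1 : ℝ) else 0) :=
          Finset.sum_congr rfl (fun a _ => Finset.sum_comm)
      _ = _ := Finset.sum_comm
  rw [h0]
  have h1 : ∀ p ∈ C, (∑ a ∈ Icc 1 N, (if p ∣ a then (1 : ℝ) else 0)) *
        (∑ b ∈ Icc 1 N, (if p ∣ b then (1 : ℝ) else 0)) ≤ (N : ℝ) ^ 2 * (1 / (p : ℝ) ^ 2) := by
    intro p hp
    have h2 := count_dvd_le N p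
    have h3 : 0 ≤ ∑ n ∈ Icc 1 N, (if p ∣ n then (1 : ℝ) else 0) :=
      Finset.sum_nonneg (fun _ _ => by positivity)
    calc _ ≤ ((N : ℝ) / p) * (N / p) := by gcongr
      _ = _ := by ring
  refine (Finset.sum_le_sum h1).trans ?_
  rw [← Finset.mul_sum]
  gcongr
  refine (sum_le_hasSum C (fun _ _ => by positivity) hasSum_zeta_two).trans ?_
  have := Real.pi_lt_d2
  have := Real.pi_pos
  nlinarith

/-- the multiplication table -/
def T (N : ℕ) : Finset ℕ := (Icc 1 N ×ˢ Icc 1 N).image (fun x => x.1 * x.2)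

theorem table_bound (C : Finset ℕ) (hC : ∀ p ∈ C, p.Prime) (hS : 0 < S C) (N : ℕ) (hN : 1 ≤ N) :
    ((T N).card : ℝ) ≤ (211 * (N : ℝ) ^ 2 + 408 * N * C.card) / S C := by
  classical
  set s := S C with hs
  have hN' : (1 : ℝ) ≤ N := by exact_mod_cast hN
  set Bad : ℕ → Prop := fun n => w C n < 0.9 * s with hBad
  set E1 := (Icc 1 (N ^ 2)).filter (fun m => 1.5 * s ≤ w C m) with hE1
  set E2 := (Icc 1 N ×ˢ Icc 1 N).filter (fun x => w C (x.1 * x.2) < 1.5 * s) with hE2
  have h1 : T N ⊆ E1 ∪ E2.image (fun x => x.1 * x.2) := by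
    intro m hm
    rw [T, mem_image] at hm
    obtain ⟨x, hx, rfl⟩ := hm
    rw [mem_union]
    rw [mem_product, mem_Icc, mem_Icc] at hx
    by_cases h : w C (x.1 * x.2) < 1.5 * s
    · right
      exact mem_image_of_mem _ (by
        rw [hE2, mem_filter, mem_product, mem_Icc, mem_Icc]; exact ⟨hx, h⟩)
    · left
      rw [hE1, mem_filter, mem_Icc]
      refine ⟨⟨Nat.mul_pos hx.1.1 hx.2.1, ?_⟩, not_lt.1 h⟩
      rw [sq]
      exact Nat.mul_le_mul hx.1.2 hx.2.2
  have h2 : ((T N).card : ℝ) ≤ E1.card + E2.card := by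
    have h3 := (Finset.card_le_card h1).trans (Finset.card_union_le _ _)
    have h4 : (E2.image (fun x => x.1 * x.2)).card ≤ E2.card := Finset.card_image_le
    exact_mod_cast h3.trans (Nat.add_le_add_left h4 _)
  have h3 : (E1.card : ℝ) ≤ (4 * (N : ℝ) ^ 2 + 8 * C.card) / s := by
    refine (chebyshev C hC (N ^ 2) (0.5 * s) (fun m => 1.5 * s ≤ w C m) (by positivity)
      (fun n hn => ?_)).trans (le_of_eq ?_)
    · rw [le_abs]; left; rw [← hs]; linarith
    · rw [← hs]
      push_cast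
      field_simp
      ring
  have hbad : (((Icc 1 N).filter Bad).card : ℝ) ≤ (100 * (N : ℝ) + 200 * C.card) / s := by
    refine (chebyshev C hC N (0.1 * s) Bad (by positivity) (fun n hn => ?_)).trans (le_of_eq ?_)
    · rw [hBad] at hn
      rw [le_abs]; right; rw [← hs]; linarith
    · rw [← hs]
      field_simp
      ring
  set E3 := (Icc 1 N ×ˢ Icc 1 N).filter (fun x => 0.3 * s ≤ w2 C x.1 x.2) with hE3
  have h4 : (E3.card : ℝ) ≤ 7 * (N : ℝ) ^ 2 / s := by
    have h5 : (E3.card : ℝ) * (0.3 * s) ≤ (N : ℝ) ^ 2 * 2 := by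
      calc (E3.card : ℝ) * (0.3 * s) = ∑ x ∈ E3, 0.3 * s := by
            rw [Finset.sum_const, nsmul_eq_mul]
        _ ≤ ∑ x ∈ E3, w2 C x.1 x.2 := by
            refine Finset.sum_le_sum ?_
            intro x hx
            rw [hE3, mem_filter] at hx
            exact hx.2
        _ ≤ ∑ x ∈ Icc 1 N ×ˢ Icc 1 N, w2 C x.1 x.2 :=
            Finset.sum_le_sum_of_subset_of_nonneg (Finset.filter_subset _ _)
              (fun _ _ _ => Finset.sum_nonneg (fun _ _ => by positivity))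
        _ = ∑ a ∈ Icc 1 N, ∑ b ∈ Icc 1 N, w2 C a b := Finset.sum_product _ _ _
        _ ≤ _ := sum_w2 C hC N
    rw [le_div_iff₀ hS]
    nlinarith [sq_nonneg (N : ℝ)]
  have h5 : E2 ⊆ ((Icc 1 N).filter Bad ×ˢ Icc 1 N) ∪ (Icc 1 N ×ˢ (Icc 1 N).filter Bad) ∪ E3 := by
    intro x hx
    rw [hE2, mem_filter, mem_product] at hx
    rw [mem_union, mem_union, mem_product, mem_product, mem_filter, mem_filter, hE3, mem_filter,
      mem_product]
    by_contra hcon
    push Not at hcon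
    obtain ⟨⟨hc1, hc2⟩, hc3⟩ := hcon
    have a1 : 0.9 * s ≤ w C x.1 := by
      by_contra h
      exact hc1 ⟨hx.1.1, not_le.1 h⟩ hx.1.2
    have a2 : 0.9 * s ≤ w C x.2 := by
      by_contra h
      exact hc2 hx.1.1 hx.1.2 (not_le.1 h)
    have a3 := hc3 hx.1
    have a4 := hx.2
    rw [w_mul C hC] at a4
    linarith
  have h6 : (E2.card : ℝ) ≤ 2 * N * ((100 * (N : ℝ) + 200 * C.card) / s) +
      7 * (N : ℝ) ^ 2 / s := by
    have h7 := Finset.card_le_card h5
    have h8 := Finset.card_union_le (((Icc 1 N).filter Bad ×ˢ Icc 1 N) ∪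
      (Icc 1 N ×ˢ (Icc 1 N).filter Bad)) E3
    have h9 := Finset.card_union_le ((Icc 1 N).filter Bad ×ˢ Icc 1 N)
      (Icc 1 N ×ˢ (Icc 1 N).filter Bad)
    rw [Finset.card_product, Finset.card_product, Nat.card_Icc, Nat.add_sub_cancel] at h9
    have h10 : (E2.card : ℝ) ≤ ((Icc 1 N).filter Bad).card * N +
        N * ((Icc 1 N).filter Bad).card + E3.card := by
      exact_mod_cast h7.trans (h8.trans (Nat.add_le_add_right h9 _))
    calc (E2.card : ℝ) ≤ ((Icc 1 N).filter Bad).card * N +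
        N * ((Icc 1 N).filter Bad).card + E3.card := h10
      _ ≤ ((100 * (N : ℝ) + 200 * C.card) / s) * N + N * ((100 * (N : ℝ) + 200 * C.card) / s) +
          7 * (N : ℝ) ^ 2 / s := by gcongr
      _ = _ := by ring
  have h7 : (8 : ℝ) * C.card ≤ 8 * N * C.card := by
    have : (0 : ℝ) ≤ C.card := by positivity
    nlinarith
  calc ((T N).card : ℝ) ≤ (4 * (N : ℝ) ^ 2 + 8 * C.card) / s +
        (2 * N * ((100 * (N : ℝ) + 200 * C.card) / s) + 7 * (N : ℝ) ^ 2 / s) := by linarith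
    _ = (211 * (N : ℝ) ^ 2 + 400 * N * C.card + 8 * C.card) / s := by field_simp; ring
    _ ≤ (211 * (N : ℝ) ^ 2 + 408 * N * C.card) / s := by
        apply div_le_div_of_nonneg_right _ hS.le
        linarith

theorem exists_C (R : ℝ) : ∃ C : Finset ℕ, (∀ p ∈ C, p.Prime) ∧ R ≤ S C := by
  classical
  set f : ℕ → ℝ := Set.indicator {p : ℕ | p.Prime} (fun n : ℕ => (1 : ℝ) / n) with hf
  have hf0 : ∀ n, 0 ≤ f n := fun n => Set.indicator_nonneg (fun _ _ => by positivity) n
  have htend := (not_summable_iff_tendsto_nat_atTop_of_nonneg hf0).1 not_summable_one_div_on_primes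
  obtain ⟨N, hN⟩ := (htend.eventually_ge_atTop R).exists
  refine ⟨(range N).filter Nat.Prime, ?_, ?_⟩
  · intro p hp
    rw [mem_filter] at hp
    exact hp.2
  · rw [S, Finset.sum_filter]
    refine hN.trans (le_of_eq ?_)
    refine Finset.sum_congr rfl ?_
    intro n _
    rw [hf, Set.indicator_apply]
    rfl

/-- Erdős' multiplication table theorem (qualitative form). -/
theorem table_small (ε : ℝ) (hε : 0 < ε) :
    ∀ᶠ N : ℕ in Filter.atTop, ((T N).card : ℝ) ≤ ε * (N : ℝ) ^ 2 := by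
  obtain ⟨C, hC, hS⟩ := exists_C (422 / ε)
  have hS0 : 0 < S C := lt_of_lt_of_le (by positivity) hS
  filter_upwards [Filter.eventually_ge_atTop 1,
    (tendsto_natCast_atTop_atTop (R := ℝ)).eventually_ge_atTop (408 * C.card / (S C * (ε / 2)))]
    with N hN1 hN2
  refine (table_bound C hC hS0 N hN1).trans ?_
  have hN0 : (0 : ℝ) < N := by exact_mod_cast hN1
  rw [div_le_iff₀ hS0]
  rw [div_le_iff₀ (by positivity)] at hN2
  rw [div_le_iff₀ hε] at hS
  have h1 : 211 * (N : ℝ) ^ 2 ≤ (ε / 2) * S C * (N : ℝ) ^ 2 := by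
    have : 211 ≤ (ε / 2) * S C := by linarith
    gcongr
  have h2 : 408 * (N : ℝ) * C.card ≤ (ε / 2) * S C * (N : ℝ) ^ 2 := by
    calc 408 * (N : ℝ) * C.card = (408 * C.card) * N := by ring
      _ ≤ (N * (S C * (ε / 2))) * N := by gcongr
      _ = _ := by ring
  linarith

/-! ### The partition -/

theorem exists_next (f : ℕ → ℝ) (hf : Filter.Tendsto f Filter.atTop Filter.atTop) (i N : ℕ) :
    ∃ N' : ℕ, N ^ 2 < N' ∧ ∀ n : ℕ, N' ^ 2 < n * (i + 1) → ((N ^ 2 : ℕ) : ℝ) ≤ f n := by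
  obtain ⟨n0, hn0⟩ := Filter.eventually_atTop.1 (hf.eventually_ge_atTop ((N ^ 2 : ℕ) : ℝ))
  refine ⟨N ^ 2 + 1 + (i + 1) * (n0 + 1), by omega, ?_⟩
  intro n hn
  apply hn0
  by_contra hcon
  push Not at hcon
  have h1 : n * (i + 1) ≤ (i + 1) * (n0 + 1) := by nlinarith
  have h2 : (i + 1) * (n0 + 1) ≤ N ^ 2 + 1 + (i + 1) * (n0 + 1) := by omega
  have h3 : N ^ 2 + 1 + (i + 1) * (n0 + 1) ≤ (N ^ 2 + 1 + (i + 1) * (n0 + 1)) ^ 2 :=
    Nat.le_self_pow (by norm_num) _
  omega

/-- The scales. -/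
noncomputable def sc (f : ℕ → ℝ) (hf : Filter.Tendsto f Filter.atTop Filter.atTop) : ℕ → ℕ
  | 0 => 2
  | i + 1 => Classical.choose (exists_next f hf i (sc f hf i))

theorem sc_spec (f : ℕ → ℝ) (hf : Filter.Tendsto f Filter.atTop Filter.atTop) (i : ℕ) :
    (sc f hf i) ^ 2 < sc f hf (i + 1) ∧
      ∀ n : ℕ, (sc f hf (i + 1)) ^ 2 < n * (i + 1) → (((sc f hf i) ^ 2 : ℕ) : ℝ) ≤ f n :=
  Classical.choose_spec (exists_next f hf i (sc f hf i))

theorem sc_mono (f : ℕ → ℝ) (hf : Filter.Tendsto f Filter.atTop Filter.atTop) :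
    StrictMono (sc f hf) := by
  apply strictMono_nat_of_lt_succ
  intro i
  have h1 := (sc_spec f hf i).1
  have h2 : sc f hf i ≤ sc f hf i ^ 2 := Nat.le_self_pow (by norm_num) _
  omega

/-- For every `f → ∞` there is a partition of the positive integers into two classes for which the
set of monochromatic products with both factors larger than `f` has lower density `0`. -/
theorem result : ∀ f : ℕ → ℝ, Filter.Tendsto f Filter.atTop Filter.atTop →
    ∃ A₁ A₂ : Set ℕ, A₁.Nonempty ∧ A₂.Nonempty ∧ Disjoint A₁ A₂ ∧ A₁ ∪ A₂ = {n : ℕ | 1 ≤ n} ∧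
      lowerDensity (monoProducts f A₁ A₂) = 0 := by
  intro f hf
  set N := sc f hf with hN
  have hmono := sc_mono f hf
  have hspec := sc_spec f hf
  rw [← hN] at hmono hspec
  set A₁ : Set ℕ := {a | ∃ i, N i < a ∧ a ≤ N i ^ 2} with hA₁
  set A₂ : Set ℕ := {a | 1 ≤ a ∧ a ∉ A₁} with hA₂
  have hN0 : N 0 = 2 := rfl
  have hN2 : ∀ i, 2 ≤ N i := fun i => by
    have := hmono.monotone (Nat.zero_le i)
    omega
  have hsq : ∀ i j, i < j → N i ^ 2 < N j := by
    intro i j hij
    exact (hspec i).1.trans_le (hmono.monotone hij)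
  have hloc : ∀ i a, N i ^ 2 < a → a ≤ N (i + 1) ^ 2 → (a ∈ A₁ ↔ N (i + 1) < a) := by
    intro i a h1 h2
    constructor
    · rintro ⟨j, hj1, hj2⟩
      rcases lt_trichotomy j (i + 1) with h | h | h
      · have h3 : N j ≤ N i := hmono.monotone (by omega)
        have h4 := Nat.pow_le_pow_left h3 2
        omega
      · rwa [h] at hj1
      · have := hsq (i + 1) j h
        omega
    · intro h
      exact ⟨i + 1, h, h2⟩
  refine ⟨A₁, A₂, ⟨3, 0, by rw [hN0]; norm_num, by rw [hN0]; norm_num⟩, ⟨1, le_rfl, ?_⟩, ?_, ?_, ?_⟩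
  · rintro ⟨i, hi, -⟩
    have := hN2 i
    omega
  · rw [Set.disjoint_left]
    intro a h1 h2
    exact h2.2 h1
  · ext a
    simp only [Set.mem_union, Set.mem_ofPred_eq]
    constructor
    · rintro (⟨i, hi, -⟩ | h)
      · have := hN2 i
        omega
      · exact h.1
    · intro h
      by_cases h1 : a ∈ A₁
      · exact Or.inl h1
      · exact Or.inr ⟨h, h1⟩
  · set D := monoProducts f A₁ A₂ with hD
    set u : ℕ → ℝ := fun M : ℕ => ((D ∩ Set.Icc 1 M).ncard : ℝ) / M with hu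
    have hu0 : ∀ M, 0 ≤ u M := fun M => by positivity
    have hu1 : ∀ M, u M ≤ 1 := by
      intro M
      rw [hu]
      apply div_le_one_of_le₀ _ (by positivity)
      have h1 : (D ∩ Set.Icc 1 M).ncard ≤ (Set.Icc 1 M).ncard :=
        Set.ncard_le_ncard Set.inter_subset_right (Set.finite_Icc 1 M)
      have h2 : (Set.Icc 1 M).ncard = M := by
        rw [← Finset.coe_Icc, Set.ncard_coe_finset, Nat.card_Icc, Nat.add_sub_cancel]
      rw [h2] at h1
      exact_mod_cast h1
    -- bound at the scales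
    have hscale : ∀ i, u (N (i + 1) ^ 2) ≤ 1 / ((i : ℝ) + 1) +
        ((T (N (i + 1))).card : ℝ) / ((N (i + 1) : ℝ) ^ 2) := by
      intro i
      have hNpos : (0 : ℝ) < N (i + 1) := by
        have := hN2 (i + 1)
        exact_mod_cast (by omega : 0 < N (i + 1))
      have hsub : D ∩ Set.Icc 1 (N (i + 1) ^ 2) ⊆
          ((Icc 1 (N (i + 1) ^ 2 / (i + 1)) ∪ T (N (i + 1)) : Finset ℕ) : Set ℕ) := by
        rintro n ⟨⟨a, a', ha, ha', rfl, hcl, hmin⟩, hn⟩
        rw [Finset.coe_union, Set.mem_union]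
        by_cases hle : a * a' ≤ N (i + 1) ^ 2 / (i + 1)
        · left
          rw [Finset.coe_Icc]
          exact ⟨hn.1, hle⟩
        · right
          rw [not_le, Nat.div_lt_iff_lt_mul (by omega)] at hle
          have hf1 := (hspec i).2 (a * a') hle
          have hf2 : ((N i ^ 2 : ℕ) : ℝ) < ((min a a' : ℕ) : ℝ) := hf1.trans_lt hmin
          have hf3 : N i ^ 2 < min a a' := by exact_mod_cast hf2
          have hnn : a * a' ≤ N (i + 1) ^ 2 := hn.2
          have hal : a ≤ N (i + 1) ^ 2 := (Nat.le_mul_of_pos_right a ha').trans hnn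
          have ha'l : a' ≤ N (i + 1) ^ 2 := (Nat.le_mul_of_pos_left a' ha).trans hnn
          have l1 := hloc i a (by omega) hal
          have l2 := hloc i a' (by omega) ha'l
          have hboth : a ≤ N (i + 1) ∧ a' ≤ N (i + 1) := by
            rcases hcl with ⟨h1, h2⟩ | ⟨h1, h2⟩
            · exfalso
              have h3 := l1.1 h1
              have h4 := l2.1 h2
              have h5 : N (i + 1) * N (i + 1) < a * a' := Nat.mul_lt_mul'' h3 h4
              rw [sq] at hnn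
              omega
            · constructor
              · by_contra hc
                exact h1.2 (l1.2 (not_le.1 hc))
              · by_contra hc
                exact h2.2 (l2.2 (not_le.1 hc))
          rw [Finset.mem_coe, T, mem_image]
          exact ⟨(a, a'), by simp [ha, ha', hboth.1, hboth.2], rfl⟩
      have hcard := Set.ncard_le_ncard hsub (Finset.finite_toSet _)
      rw [Set.ncard_coe_finset] at hcard
      have hcard2 := hcard.trans (Finset.card_union_le _ _)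
      rw [Nat.card_Icc, Nat.add_sub_cancel] at hcard2
      have hcard3 : ((D ∩ Set.Icc 1 (N (i + 1) ^ 2)).ncard : ℝ) ≤
          ((N (i + 1) ^ 2 / (i + 1) : ℕ) : ℝ) + (T (N (i + 1))).card := by exact_mod_cast hcard2
      have hdiv : ((N (i + 1) ^ 2 / (i + 1) : ℕ) : ℝ) ≤ ((N (i + 1) : ℝ) ^ 2) / ((i : ℝ) + 1) := by
        have := @Nat.cast_div_le ℝ _ _ _ (N (i + 1) ^ 2) (i + 1)
        push_cast at this
        exact this
      rw [hu]
      simp only
      push_cast
      rw [div_le_iff₀ (by positivity)]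
      refine hcard3.trans ?_
      rw [add_mul, div_mul_cancel₀ _ (by positivity)]
      have : ((N (i + 1) : ℝ) ^ 2) / ((i : ℝ) + 1) = 1 / ((i : ℝ) + 1) * (N (i + 1) : ℝ) ^ 2 := by
        ring
      linarith
    have hfreq : ∀ ε : ℝ, 0 < ε → ∃ᶠ M in Filter.atTop, u M < ε := by
      intro ε hε
      rw [Filter.frequently_atTop]
      intro M0
      have e1 : ∀ᶠ i : ℕ in Filter.atTop, 1 / ((i : ℝ) + 1) < ε / 2 :=
        (tendsto_one_div_add_atTop_nhds_zero_nat (𝕜 := ℝ)).eventually (gt_mem_nhds (by positivity))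
      have hNt : Filter.Tendsto (fun i => N (i + 1)) Filter.atTop Filter.atTop :=
        hmono.tendsto_atTop.comp (Filter.tendsto_add_atTop_nat 1)
      have e2 := hNt.eventually (table_small (ε / 4) (by positivity))
      obtain ⟨i, h1, h2, h3⟩ := (e1.and (e2.and (Filter.eventually_ge_atTop M0))).exists
      refine ⟨N (i + 1) ^ 2, ?_, ?_⟩
      · have h4 : i + 1 ≤ N (i + 1) := hmono.id_le (i + 1)
        have h5 : N (i + 1) ≤ N (i + 1) ^ 2 := Nat.le_self_pow (by norm_num) _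
        omega
      · have hNpos : (0 : ℝ) < N (i + 1) := by
          have := hN2 (i + 1)
          exact_mod_cast (by omega : 0 < N (i + 1))
        have h4 : ((T (N (i + 1))).card : ℝ) / ((N (i + 1) : ℝ) ^ 2) ≤ ε / 4 := by
          rw [div_le_iff₀ (by positivity)]
          exact h2
        have := hscale i
        linarith
    have hbdd : Filter.IsBoundedUnder (· ≥ ·) Filter.atTop u :=
      Filter.isBoundedUnder_of ⟨0, hu0⟩
    have hcobdd : Filter.IsCoboundedUnder (· ≥ ·) Filter.atTop u :=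
      (Filter.isBoundedUnder_of ⟨1, hu1⟩ : Filter.IsBoundedUnder (· ≤ ·) Filter.atTop u).isCoboundedUnder_ge
    show Filter.liminf u Filter.atTop = 0
    apply le_antisymm
    · apply le_of_forall_pos_le_add
      intro ε hε
      rw [zero_add]
      apply Filter.liminf_le_of_frequently_le _ hbdd
      exact (hfreq ε hε).mono (fun M h => h.le)
    · apply Filter.le_liminf_of_le hcobdd
      exact Filter.Eventually.of_forall hu0

end Pool.Agent.Results.MP_c34da8_nt.TwoClasses
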